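import Mathlib
import Pool.Agent.W2helper23.SG.Stm

set_option autoImplicit false

/-!
# Piece SG10: a proper subgroup of a 2-group lies in a subgroup of index two
-/

namespace Pool.Agent.W2helper73.SG

open Pool.Agent.K4H74.ST

/-- a coatom of a finite `2`-group has index two -/
theorem index_two_of_coatom {R : Type} [Group R] [Finite R] (hR : IsPGroup 2 R) (M : Subgroup R)
    (hM : IsCoatom M) : M.index = 2 := by
  have : Fact (Nat.Prime 2) := ⟨Nat.prime_two⟩
  have : Group.IsNilpotent R := hR.isNilpotent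
  have hN : M.Normal :=
    Subgroup.NormalizerCondition.normal_of_coatom M Group.normalizerCondition_of_isNilpotent hM
  have hQ : IsPGroup 2 (R ⧸ M) := hR.to_quotient M
  have hnt : Nontrivial (R ⧸ M) := by
    rw [QuotientGroup.nontrivial_iff]
    exact hM.1
  obtain ⟨n, hn⟩ := IsPGroup.iff_card.1 hQ
  have hn0 : n ≠ 0 := by
    intro h0
    rw [h0, pow_zero] at hn
    exact absurd hn (Finite.one_lt_card (α := R ⧸ M)).ne'
  have hdvd : 2 ∣ Nat.card (R ⧸ M) := by
    rw [hn]
    exact dvd_pow_self 2 hn0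
  obtain ⟨x, hx⟩ := exists_prime_orderOf_dvd_card' 2 hdvd
  obtain ⟨y, rfl⟩ := QuotientGroup.mk_surjective x
  -- the preimage of the subgroup generated by x
  set K : Subgroup R := (Subgroup.zpowers (y : R ⧸ M)).comap (QuotientGroup.mk' M) with hK
  have hMK : M < K := by
    refine lt_of_le_of_ne ?_ ?_
    · intro m hm
      rw [hK, Subgroup.mem_comap]
      have : QuotientGroup.mk' M m = 1 := (QuotientGroup.eq_one_iff m).2 hm
      rw [this]
      exact Subgroup.one_mem _
    · intro hEq
      have hy : y ∈ K := by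
        rw [hK, Subgroup.mem_comap]
        exact Subgroup.mem_zpowers _
      rw [← hEq] at hy
      have : (y : R ⧸ M) = 1 := (QuotientGroup.eq_one_iff y).2 hy
      rw [this, orderOf_one] at hx
      norm_num at hx
  have hKtop : K = ⊤ := hM.2 K hMK
  have hz : Subgroup.zpowers (y : R ⧸ M) = ⊤ := by
    rw [eq_top_iff]
    rintro q -
    obtain ⟨r, rfl⟩ := QuotientGroup.mk_surjective q
    have hr : r ∈ K := by rw [hKtop]; exact Subgroup.mem_top r
    rw [hK, Subgroup.mem_comap] at hr
    exact hr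
  have hc : Nat.card (R ⧸ M) = 2 := by
    rw [← hx, ← Nat.card_zpowers, hz, Subgroup.card_top]
  rw [Subgroup.index_eq_card]
  exact hc

/-- a subgroup of index two is the kernel of a sign character -/
theorem sg_of_index_two {G : Type} [Group G] (U : Subgroup G) (hU : U.index = 2) :
    ∃ s : G →* ℂˣ, Sg s ∧ (∃ t, s t = -1) ∧ U ≤ s.ker := by
  classical
  have hne : (-1 : ℂˣ) ≠ 1 := by
    intro h
    have h2 := congrArg (fun u : ℂˣ => (u : ℂ)) h
    norm_num at h2
  refine ⟨⟨⟨fun g => if g ∈ U then 1 else -1, ?_⟩, ?_⟩, ?_, ?_, ?_⟩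
  · rw [if_pos U.one_mem]
  · intro a b
    by_cases ha : a ∈ U <;> by_cases hb : b ∈ U
    · simp [Subgroup.mul_mem_iff_of_index_two hU, ha, hb]
    · simp [Subgroup.mul_mem_iff_of_index_two hU, ha, hb]
    · simp [Subgroup.mul_mem_iff_of_index_two hU, ha, hb]
    · simp [Subgroup.mul_mem_iff_of_index_two hU, ha, hb]
  · intro g
    by_cases hg : g ∈ U
    · left
      show (if g ∈ U then (1 : ℂˣ) else -1) = 1
      rw [if_pos hg]
    · right
      show (if g ∈ U then (1 : ℂˣ) else -1) = -1
      rw [if_neg hg]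
  · have htop : U ≠ ⊤ := by
      intro h
      rw [h, Subgroup.index_top] at hU
      norm_num at hU
    obtain ⟨t, ht⟩ : ∃ t, t ∉ U := by
      by_contra hcon
      push Not at hcon
      exact htop (eq_top_iff.2 fun x _ => hcon x)
    refine ⟨t, ?_⟩
    show (if t ∈ U then (1 : ℂˣ) else -1) = -1
    rw [if_neg ht]
  · intro g hg
    rw [MonoidHom.mem_ker]
    show (if g ∈ U then (1 : ℂˣ) else -1) = 1
    rw [if_pos hg]

theorem SG10 : Pool.Agent.W2helper23.SG.P_SG10 := by
  intro G P _ _ _ ρ hρ V hV hVt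
  classical
  have hR : IsPGroup 2 ρ.range := by
    rintro ⟨r, g, rfl⟩
    obtain ⟨k, hk⟩ := hρ g
    refine ⟨k, ?_⟩
    apply Subtype.ext
    simpa using hk
  set W : Subgroup ρ.range := V.map ρ.rangeRestrict with hW
  have hWt : W ≠ ⊤ := by
    intro h
    apply hVt
    rw [eq_top_iff]
    rintro g -
    have hg : ρ.rangeRestrict g ∈ W := by rw [h]; exact Subgroup.mem_top _
    rw [hW, Subgroup.mem_map] at hg
    obtain ⟨v, hv, hvg⟩ := hg
    have h1 : ρ v = ρ g := congrArg Subtype.val hvg
    have h2 : v⁻¹ * g ∈ ρ.ker := by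
      rw [MonoidHom.mem_ker, map_mul, map_inv, h1, inv_mul_cancel]
    have h3 := V.mul_mem hv (hV h2)
    rwa [mul_inv_cancel_left] at h3
  obtain h | ⟨M, hM, hWM⟩ := eq_top_or_exists_le_coatom W
  · exact absurd h hWt
  · have h2 := index_two_of_coatom hR M hM
    have h3 : (M.comap ρ.rangeRestrict).index = 2 := by
      rw [Subgroup.index_comap_of_surjective M ρ.rangeRestrict_surjective, h2]
    obtain ⟨s, hs, ht, hU⟩ := sg_of_index_two _ h3
    refine ⟨s, hs, ht, le_trans ?_ hU⟩
    intro v hv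
    rw [Subgroup.mem_comap]
    exact hWM (Subgroup.mem_map_of_mem _ hv)

end Pool.Agent.W2helper73.SG
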